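import Pool.Agent.SZT.StmtsB

/-!
# SZT, row DIV: division of a Laurent series by `1 - X₁ / X`
-/

set_option autoImplicit false

noncomputable section

namespace Pool.Agent.SZT.H23

open Pool.Agent.SZT.B Filter Topology

variable {L : Type} [NormedField L] [IsUltrametricDist L] [CompleteSpace L]

/-- the quotient -/
def quo (c : ℤ → L) (X₁ : L) (k : ℤ) : L := ∑' l : ℕ, c (k + l) * X₁ ^ l

theorem quo_summable {c : ℤ → L} {X₁ : L} (hc : ∀ k, ‖c k‖ ≤ 1) (h1 : ‖X₁‖ < 1) (k : ℤ) :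
    Summable (fun l : ℕ => c (k + l) * X₁ ^ l) := by
  refine Summable.of_norm_bounded (g := fun l : ℕ => ‖X₁‖ ^ l)
    (summable_geometric_of_lt_one (norm_nonneg _) h1) (fun l => ?_)
  rw [norm_mul, norm_pow]
  exact mul_le_of_le_one_left (pow_nonneg (norm_nonneg _) _) (hc _)

theorem quo_le_one {c : ℤ → L} {X₁ : L} (hc : ∀ k, ‖c k‖ ≤ 1) (h1 : ‖X₁‖ < 1) (k : ℤ) :
    ‖quo c X₁ k‖ ≤ 1 := by
  unfold quo
  refine IsUltrametricDist.norm_tsum_le_of_forall_le_of_nonneg zero_le_one (fun l => ?_)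
  rw [norm_mul, norm_pow]
  exact mul_le_one₀ (hc _) (pow_nonneg (norm_nonneg _) _)
    (pow_le_one₀ (norm_nonneg _) h1.le)

theorem quo_rec {c : ℤ → L} {X₁ : L} (hc : ∀ k, ‖c k‖ ≤ 1) (h1 : ‖X₁‖ < 1) (k : ℤ) :
    quo c X₁ k = c k + X₁ * quo c X₁ (k + 1) := by
  unfold quo
  rw [(quo_summable hc h1 k).tsum_eq_zero_add]
  congr 1
  · simp
  · rw [← tsum_mul_left]
    refine tsum_congr (fun l => ?_)
    rw [pow_succ]
    have e : k + ((l + 1 : ℕ) : ℤ) = k + 1 + (l : ℤ) := by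
      push_cast
      ring
    rw [e]
    ring

theorem quo_le {r μ : ℝ} {c : ℤ → L} {X₁ : L} (h0 : 0 < r) (hμ : 0 < μ) (hc : Bdd r μ c)
    (hX : Ann r X₁) (hs : Summable (fun k : ℤ => c k * X₁ ^ k)) (hv : val c X₁ = 0) (k : ℤ) :
    ‖quo c X₁ k‖ ≤ μ * (r / ‖X₁‖) * r ^ (-k) := by
  have hx0 : 0 < ‖X₁‖ := lt_trans h0 hX.1
  have hne : X₁ ≠ 0 := norm_pos_iff.1 hx0
  have hq : 1 < ‖X₁‖ / r := by
    rw [one_lt_div h0]
    exact hX.1
  have hs' : Summable (fun j : ℤ => c (k + j) * X₁ ^ (k + j)) :=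
    (Equiv.addLeft k).summable_iff.2 hs
  have ht : ∑' j : ℤ, c (k + j) * X₁ ^ (k + j) = 0 := by
    have := (Equiv.addLeft k).tsum_eq (fun j : ℤ => c j * X₁ ^ j)
    simp only [Equiv.coe_addLeft] at this
    rw [this]
    exact hv
  have hsn : Summable (fun n : ℕ => c (k + (n : ℤ)) * X₁ ^ (k + (n : ℤ))) :=
    hs'.comp_injective (i := fun n : ℕ => (n : ℤ)) Nat.cast_injective
  have hsm : Summable (fun n : ℕ => c (k + (-((n : ℤ) + 1))) * X₁ ^ (k + (-((n : ℤ) + 1)))) :=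
    hs'.comp_injective (i := fun n : ℕ => (-((n : ℤ) + 1))) (by
      intro a b h
      have h : (-((a : ℤ) + 1)) = (-((b : ℤ) + 1)) := h
      omega)
  have hsplit := tsum_of_nat_of_neg_add_one (f := fun j : ℤ => c (k + j) * X₁ ^ (k + j)) hsn hsm
  rw [ht] at hsplit
  have e1 : ∑' n : ℕ, c (k + (n : ℤ)) * X₁ ^ (k + (n : ℤ)) = X₁ ^ k * quo c X₁ k := by
    unfold quo
    rw [← tsum_mul_left]
    refine tsum_congr (fun l => ?_)
    rw [zpow_add₀ hne, zpow_natCast]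
    ring
  have h2 : ‖∑' n : ℕ, c (k + (-((n : ℤ) + 1))) * X₁ ^ (k + (-((n : ℤ) + 1)))‖ ≤
      μ * (‖X₁‖ / r) ^ (k - 1) := by
    refine IsUltrametricDist.norm_tsum_le_of_forall_le_of_nonneg (by positivity) (fun n => ?_)
    rw [norm_mul, norm_zpow]
    have h3 := hc.2 (k + (-((n : ℤ) + 1)))
    have h4 : ‖c (k + (-((n : ℤ) + 1)))‖ * ‖X₁‖ ^ (k + (-((n : ℤ) + 1))) ≤
        μ * r ^ (-(k + (-((n : ℤ) + 1)))) * ‖X₁‖ ^ (k + (-((n : ℤ) + 1))) :=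
      mul_le_mul_of_nonneg_right h3 (zpow_pos hx0 _).le
    refine le_trans h4 ?_
    have e2 : μ * r ^ (-(k + (-((n : ℤ) + 1)))) * ‖X₁‖ ^ (k + (-((n : ℤ) + 1))) =
        μ * (‖X₁‖ / r) ^ (k + (-((n : ℤ) + 1))) := by
      rw [div_zpow, zpow_neg]
      field_simp
    rw [e2]
    refine mul_le_mul_of_nonneg_left ?_ hμ.le
    exact zpow_le_zpow_right₀ hq.le (by omega)
  have h5 : ‖X₁‖ ^ k * ‖quo c X₁ k‖ ≤ μ * (‖X₁‖ / r) ^ (k - 1) := by
    have h6 : X₁ ^ k * quo c X₁ k =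
        - ∑' n : ℕ, c (k + (-((n : ℤ) + 1))) * X₁ ^ (k + (-((n : ℤ) + 1))) := by
      rw [← e1]
      exact eq_neg_of_add_eq_zero_left hsplit.symm
    rw [← norm_zpow, ← norm_mul, h6, norm_neg]
    exact h2
  have hzp : 0 < ‖X₁‖ ^ k := zpow_pos hx0 _
  have e3 : μ * (‖X₁‖ / r) ^ (k - 1) = ‖X₁‖ ^ k * (μ * (r / ‖X₁‖) * r ^ (-k)) := by
    rw [zpow_sub_one₀ (by positivity), div_zpow, zpow_neg]
    field_simp
  rw [e3] at h5
  exact le_of_mul_le_mul_left h5 hzp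

/-- **DIV** -/
theorem div (hSum : SumStmt) : DivStmt := by
  intro L _ _ _ r μ c X₁ h0 h1 hμ hμ1 hc hX hv
  have hx0 : 0 < ‖X₁‖ := lt_trans h0 hX.1
  have hb : Bdd r (μ * (r / ‖X₁‖)) (quo c X₁) :=
    ⟨quo_le_one hc.1 hX.2, quo_le h0 hμ hc hX (hSum L r μ c X₁ h0 h1 hμ hc hX).2.2.2.2.1 hv⟩
  refine ⟨quo c X₁, hb, fun X hXA => ?_⟩
  have hXne : X ≠ 0 := norm_pos_iff.1 (lt_trans h0 hXA.1)
  have hs := (hSum L r (μ * (r / ‖X₁‖)) (quo c X₁) X h0 h1 (by positivity) hb hXA).2.2.2.2.1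
  have hs1 : Summable (fun k : ℤ => quo c X₁ (k + 1) * X ^ (k + 1)) :=
    (Equiv.addRight (1 : ℤ)).summable_iff.2 hs
  have ht1 : ∑' k : ℤ, quo c X₁ (k + 1) * X ^ (k + 1) = val (quo c X₁) X := by
    have := (Equiv.addRight (1 : ℤ)).tsum_eq (fun k : ℤ => quo c X₁ k * X ^ k)
    simp only [Equiv.coe_addRight] at this
    exact this
  have e : (fun k : ℤ => c k * X ^ k) =
      fun k : ℤ => quo c X₁ k * X ^ k - (X₁ / X) * (quo c X₁ (k + 1) * X ^ (k + 1)) := by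
    funext k
    rw [quo_rec hc.1 hX.2 k, zpow_add_one₀ hXne]
    field_simp
    ring
  have e2 : val c X = ∑' k : ℤ, (quo c X₁ k * X ^ k -
      (X₁ / X) * (quo c X₁ (k + 1) * X ^ (k + 1))) := by
    unfold val
    rw [e]
  rw [e2, (hs.hasSum.sub (hs1.mul_left _).hasSum).tsum_eq, tsum_mul_left, ht1]
  unfold val
  ring

end Pool.Agent.SZT.H23
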