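import Pool.Agent.SZT.StmtsB

/-!
# SZT, row FAC: division of a Laurent series by its zeros
-/

set_option autoImplicit false

noncomputable section

namespace Pool.Agent.SZT.H23

open Pool.Agent.SZT.B Filter Topology

variable {L : Type} [NormedField L] [IsUltrametricDist L]

theorem norm_add_lt {x y : L} (h : ‖y‖ < ‖x‖) : ‖x + y‖ = ‖x‖ := by
  rw [IsUltrametricDist.norm_add_eq_max_of_norm_ne_norm (ne_of_gt h)]
  exact max_eq_left h.le

theorem norm_near {x X : L} (h : ‖X - x‖ < ‖x‖) : ‖X‖ = ‖x‖ := by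
  have e : X = x + (X - x) := by ring
  rw [e]
  exact norm_add_lt h

/-- a zero of positive order is a zero -/
theorem val_zero (hLip : LipStmt) [CompleteSpace L] {r : ℝ} {c : ℤ → L} {x : L} {m : ℕ}
    (h0 : 0 < r) (h1 : r < 1) (hc : Bdd r 1 c) (hx : Ann r x) (hm : 1 ≤ m)
    (hg : Grow (val c) x m) : val c x = 0 := by
  obtain ⟨C, δ, hδ, hG⟩ := hg
  have hx0 : 0 < ‖x‖ := lt_trans h0 hx.1
  have hxne : x ≠ 0 := norm_pos_iff.1 hx0
  have hlim : Tendsto (fun j : ℕ => ‖x‖ ^ (j + 1)) atTop (𝓝 0) :=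
    (tendsto_add_atTop_iff_nat 1).2 (tendsto_pow_atTop_nhds_zero_of_lt_one hx0.le hx.2)
  have hlim2 : Tendsto (fun j : ℕ => C * (‖x‖ ^ (j + 1)) ^ m + ‖x‖ ^ (j + 1) / ‖x‖) atTop
      (𝓝 (C * 0 ^ m + 0 / ‖x‖)) :=
    ((hlim.pow m).const_mul C).add (hlim.div_const _)
  rw [zero_pow (by omega), mul_zero, zero_div, add_zero] at hlim2
  have hev : ∀ᶠ j : ℕ in atTop, ‖val c x‖ ≤ C * (‖x‖ ^ (j + 1)) ^ m + ‖x‖ ^ (j + 1) / ‖x‖ := by
    filter_upwards [hlim.eventually_lt_const hδ, eventually_ge_atTop 1] with j hj hj1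
    have e1 : x * (1 + x ^ j) - x = x ^ (j + 1) := by ring
    have hn : ‖x * (1 + x ^ j) - x‖ = ‖x‖ ^ (j + 1) := by rw [e1, norm_pow]
    have hlt : ‖x * (1 + x ^ j) - x‖ < ‖x‖ := by
      rw [hn, pow_succ]
      have : ‖x‖ ^ j < 1 := pow_lt_one₀ hx0.le hx.2 (by omega)
      nlinarith
    have hne : x * (1 + x ^ j) ≠ x := by
      intro h
      rw [h, sub_self, norm_zero] at hn
      exact (pow_ne_zero (j + 1) hx0.ne') hn.symm
    have h2 := hG _ hne (by rw [hn]; exact hj)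
    have h3 := hLip L r c (x * (1 + x ^ j)) x h0 h1 hc hx (norm_near hlt)
    rw [hn] at h2 h3
    have h4 : ‖val c x‖ ≤ ‖val c (x * (1 + x ^ j))‖ + ‖val c (x * (1 + x ^ j)) - val c x‖ := by
      have := norm_sub_le (val c (x * (1 + x ^ j))) (val c (x * (1 + x ^ j)) - val c x)
      simpa using this
    linarith
  have h5 := ge_of_tendsto hlim2 hev
  exact norm_le_zero_iff.1 h5

/-- growth of a quotient -/
theorem grow_quot {r : ℝ} {F G : L → L} {x x' : L} {m : ℕ} (h0 : 0 < r)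
    (hx : Ann r x') (hF : ∀ X, Ann r X → F X = (1 - x / X) * G X) :
    (x' = x → Grow F x' (m + 1) → Grow G x' m) ∧ (x' ≠ x → Grow F x' m → Grow G x' m) := by
  have hx0 : 0 < ‖x'‖ := lt_trans h0 hx.1
  have key : ∀ X : L, ‖X - x'‖ < ‖x'‖ → ‖F X‖ * ‖x'‖ = ‖X - x‖ * ‖G X‖ := by
    intro X hX
    have hn := norm_near hX
    have hA : Ann r X := by
      unfold Ann
      rw [hn]
      exact hx
    have hXne : X ≠ 0 := norm_pos_iff.1 (by rw [hn]; exact hx0)
    rw [hF X hA, norm_mul, ← hn]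
    have e : (1 - x / X) = (X - x) / X := by field_simp
    rw [e, norm_div]
    have : ‖X‖ ≠ 0 := norm_ne_zero_iff.2 hXne
    field_simp
  constructor
  · rintro rfl ⟨C, δ, hδ, hG⟩
    refine ⟨C * ‖x'‖, min δ ‖x'‖, lt_min hδ hx0, fun X hne hX => ?_⟩
    have h1 := hG X hne (lt_of_lt_of_le hX (min_le_left _ _))
    have h2 := key X (lt_of_lt_of_le hX (min_le_right _ _))
    have h3 : 0 < ‖X - x'‖ := norm_pos_iff.2 (sub_ne_zero.2 hne)
    have h4 : ‖X - x'‖ * ‖G X‖ ≤ ‖X - x'‖ * (C * ‖x'‖ * ‖X - x'‖ ^ m) := by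
      rw [← h2]
      have := mul_le_mul_of_nonneg_right h1 hx0.le
      calc _ ≤ C * ‖X - x'‖ ^ (m + 1) * ‖x'‖ := this
        _ = _ := by ring
    exact le_of_mul_le_mul_left h4 h3
  · rintro hne' ⟨C, δ, hδ, hG⟩
    have hd : 0 < ‖x' - x‖ := norm_pos_iff.2 (sub_ne_zero.2 hne')
    refine ⟨C * (‖x'‖ / ‖x' - x‖), min δ (min ‖x'‖ ‖x' - x‖), lt_min hδ (lt_min hx0 hd),
      fun X hne hX => ?_⟩
    have h1 := hG X hne (lt_of_lt_of_le hX (min_le_left _ _))
    have h2 := key X (lt_of_lt_of_le hX (le_trans (min_le_right _ _) (min_le_left _ _)))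
    have h3 : ‖X - x'‖ < ‖x' - x‖ :=
      lt_of_lt_of_le hX (le_trans (min_le_right _ _) (min_le_right _ _))
    have h4 : ‖X - x‖ = ‖x' - x‖ := by
      have e : X - x = (x' - x) + (X - x') := by ring
      rw [e]
      exact norm_add_lt h3
    rw [h4] at h2
    have h5 : ‖x' - x‖ * ‖G X‖ ≤ ‖x' - x‖ * (C * (‖x'‖ / ‖x' - x‖) * ‖X - x'‖ ^ m) := by
      rw [← h2]
      have := mul_le_mul_of_nonneg_right h1 hx0.le
      calc _ ≤ C * ‖X - x'‖ ^ m * ‖x'‖ := this
        _ = _ := by field_simp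
    exact le_of_mul_le_mul_left h5 hd

theorem bdd_one {r μ : ℝ} {c : ℤ → L} (h0 : 0 < r) (hμ : μ ≤ 1) (h : Bdd r μ c) :
    Bdd r 1 c := by
  refine ⟨h.1, fun k => le_trans (h.2 k) ?_⟩
  exact mul_le_mul_of_nonneg_right hμ (zpow_pos h0 _).le

/-- **FAC** -/
theorem fac (_hSum : SumStmt) (hLip : LipStmt) (hDiv : DivStmt) : FacStmt := by
  classical
  intro L _ _ _ r μ c Z
  induction Z using Multiset.induction_on generalizing μ c with
  | empty =>
    intro h0 h1 hμ hμ1 hc _ _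
    refine ⟨c, by simpa using hc, fun X _ => by simp⟩
  | cons x Z ih =>
    intro h0 h1 hμ hμ1 hc hA hG
    have hxA : Ann r x := hA x (Multiset.mem_cons_self x Z)
    have hx0 : 0 < ‖x‖ := lt_trans h0 hxA.1
    have hGx := hG x (Multiset.mem_cons_self x Z)
    have hv : val c x = 0 := by
      refine val_zero hLip h0 h1 (bdd_one h0 hμ1 hc) hxA ?_ (m := Multiset.count x (x ::ₘ Z)) ?_
      · rw [Multiset.count_cons_self]
        omega
      · exact hGx
    obtain ⟨g, hg, hval⟩ := hDiv L r μ c x h0 h1 hμ hμ1 hc hxA hv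
    have hq : r / ‖x‖ ≤ 1 := by
      rw [div_le_one hx0]
      exact hxA.1.le
    have hq0 : 0 < r / ‖x‖ := div_pos h0 hx0
    obtain ⟨g', hg', hval'⟩ := ih (μ * (r / ‖x‖)) g h0 h1 (mul_pos hμ hq0)
      (by nlinarith) hg (fun y hy => hA y (Multiset.mem_cons_of_mem hy)) (fun y hy => by
        have h2 := hG y (Multiset.mem_cons_of_mem hy)
        have h3 := grow_quot (F := val c) (G := val g) (x := x) (x' := y)
          (m := Multiset.count y Z) h0 (hA y (Multiset.mem_cons_of_mem hy)) hval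
        by_cases hyx : y = x
        · refine h3.1 hyx ?_
          rw [hyx] at h2 ⊢
          rw [Multiset.count_cons_self] at h2
          exact h2
        · refine h3.2 hyx ?_
          rw [Multiset.count_cons_of_ne hyx] at h2
          exact h2)
    refine ⟨g', ?_, fun X hX => ?_⟩
    · rw [Multiset.map_cons, Multiset.prod_cons, ← mul_assoc]
      exact hg'
    · rw [hval X hX, hval' X hX, Multiset.map_cons, Multiset.prod_cons, mul_assoc]

end Pool.Agent.SZT.H23
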